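import Pool.Agent.Helper48.LS3.Cand
import Pool.Agent.Helper70K1.NQ.Vis

/-!
# The run with a table of guesses
-/

set_option autoImplicit false

namespace Pool.Agent.Helper48.LS3

open Pool.Agent.NPC
open Pool.Agent.Helper70K1.SP hiding PN
open Pool.Agent.Helper70K1.PP (PN PE PN_eval PE_eval PE_pos mm_le_PE rrP rrP_spec sz_queryP findF
  findF_spec poly_findF RB cc)
open Pool.Agent.Helper70K1.NQ (Tab fN YL YN VisOK runG_correct')
open Pool.Agent.Helper45.LS
open Pool.Agent.H623R2.PS (evq)
open Pool.Agent.H656R2.AK (evc)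

/-- The instance of a step. -/
def IN (m p : ℕ) (F : List (List (Bool × ℕ))) (os : List Op) (r : List ℕ) (i : ℕ) : Ins :=
  (List.replicate m (), p, F, os, r, i)

/-- The parameters fit. -/
structure Par (P : Polynomial ℕ) (qs : List Bool) (F : List (List (Bool × ℕ))) (m p : ℕ) :
    Prop where
  hp : (p + 1).Prime
  h1 : (PMS P).eval m < p + 1
  h2 : p + 1 ≤ 2 * (PMS P).eval m
  hsz : sz F + sz (opsQ qs.length 0 qs) + sz qs + 10 ≤ m
  hpow : (PDS P).eval m + 2 * ((PE P).eval m) ^ 2 < 2 ^ m

/-- The answers of a selection function are good. -/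
def SpecN (P q0 : Polynomial ℕ) (gg : List Bool → Option ℕ) : Prop :=
  ∀ (n : ℕ) (xs : List (List Bool)), (∀ x ∈ xs, x.length ≤ n) → P.eval n ≤ xs.length →
      (∃ w : List Bool, w.length ≤ q0.eval (bits xs).length ∧ gg (pairBits (bits xs) w) ≠ none) ∧
      ∀ (w : List Bool) (i : ℕ), w.length ≤ q0.eval (bits xs).length →
        gg (pairBits (bits xs) w) = some i → i < xs.length ∧ ¬ Lone LV xs i

variable {P q0 : Polynomial ℕ} {gg : List Bool → Option ℕ} {qs : List Bool}
  {F : List (List (Bool × ℕ))} {m p : ℕ}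

theorem Par.pm (H : Par P qs F m p) : p < 2 ^ m := by
  have h1 := H.h2
  have h2 := H.hpow
  have h3 : (PDS P).eval m = 2 * (PMS P).eval m + 1 := by simp [PDS]
  omega

theorem Par.mp (H : Par P qs F m p) : m ≤ p := by
  have h1 := H.h1
  have h3 : (PMS P).eval m = (PKS P).eval m * (PKS P).eval m * m + m + 2 := by simp [PMS]
  omega

theorem IN_m (m p : ℕ) (F : List (List (Bool × ℕ))) (os : List Op) (r : List ℕ) (i : ℕ) :
    (IN m p F os r i).m = m := by
  change (List.replicate m ()).length = m
  simp

section inst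

variable {os : List Op} {r : List ℕ} {i : ℕ}

/-- The lists of queries are long enough and their members short enough. -/
theorem inst_legit (H : Par P qs F m p) (hos : os <:+ opsQ qs.length 0 qs)
    (hrl : r.length = qs.length) (hra : ∀ a ∈ r, a ≤ p) (hi : i < qs.length) {j q t : ℕ}
    (hj : j ≤ m * m) (hq : q < 2 ^ (rrP ((PE P).eval m) * cc))
    (ht : t < 2 ^ (rrP ((PE P).eval m) * (2 * cc))) :
    (∀ s ∈ YL P (IN m p F os r i) j q t, s.length ≤ PN.eval m) ∧
      P.eval (PN.eval m) ≤ (YL P (IN m p F os r i) j q t).length := by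
  have hpm := H.pm
  have hsz := H.hsz
  have hn : qs.length < sz qs := length_lt_sz _
  have hIm := IN_m m p F os r i
  have hM0 : 0 < (PE P).eval m := PE_pos _ _
  obtain ⟨hr0, hr1', hr2'⟩ := rrP_spec hM0
  obtain ⟨hfl, hz⟩ := findF_spec hr0
  have hMm : 2 * ((PE P).eval m) ^ 2 < 2 ^ m := by
    have := H.hpow
    omega
  have hrm : rrP ((PE P).eval m) ≤ m := Nat.size_le.2 hMm
  constructor
  · intro s hs
    unfold YL at hs
    rw [hIm] at hs
    obtain ⟨i', hi', rfl⟩ := List.mem_map.1 hs
    rw [List.mem_range] at hi'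
    unfold fN
    rw [bits_length, hIm]
    refine sz_queryP hpm (by omega) ((sz_suffix hos).trans (by omega)) (by omega) hra
      (by omega) hj hrm (by omega) hq hfl ht (lt_of_lt_of_le hi' ?_)
    have := Nat.le_self_pow (n := 2) (by norm_num) ((PE P).eval m)
    omega
  · unfold YL
    rw [hIm, List.length_map, List.length_range, PE_eval]
    omega

/-- The true list of coefficients. -/
theorem inst_cand (H : Par P qs F m p) (hos : os <:+ opsQ qs.length 0 qs)
    (hrl : r.length = qs.length) (_hra : ∀ a ∈ r, a ≤ p) (hi : i < qs.length) :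
    ∃ V, Good (IN m p F os r i) V ∧ ∀ γ : List Bool → ℕ,
      (∀ j ≤ m * m, ∀ q < 2 ^ (rrP ((PE P).eval m) * cc),
      ∀ t < 2 ^ (rrP ((PE P).eval m) * (2 * cc)),
        γ (YN P (IN m p F os r i) j q t) < (YL P (IN m p F os r i) j q t).length ∧
        ¬ Lone LV (YL P (IN m p F os r i) j q t) (γ (YN P (IN m p F os r i) j q t))) →
      cf (IN m p F os r i).m V ∈ cdS γ P (IN m p F os r i) := by
  have hpm := H.pm
  have hmp := H.mp
  have hsz := H.hsz
  have hn : qs.length < sz qs := length_lt_sz _
  have hIm := IN_m m p F os r i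
  have hprime : Fact (p + 1).Prime := ⟨H.hp⟩
  have hdegleaf : (F.map List.length).sum + 2 < m := by
    have key : ∀ F : List (List (Bool × ℕ)), (F.map List.length).sum + 1 ≤ sz F := by
      intro F
      induction F with
      | nil => simp
      | cons c F ih =>
        have := length_lt_sz c
        simp only [List.map_cons, List.sum_cons, sz_list_cons]
        omega
    have := key F
    omega
  have hwf : Wf (IN m p F os r i) := ⟨by rw [hIm]; exact hpm, by
    change i < r.length
    omega, fun o ho => by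
    change o.2 < r.length
    rw [hrl]
    exact opsQ_idx _ _ 0 (by omega) o (hos.subset ho)⟩
  have hprime' : Fact ((IN m p F os r i).p + 1).Prime := hprime
  obtain ⟨V, hV⟩ := good_exists (I := IN m p F os r i) (by rw [hIm]; exact hpm)
    (allDeg_suffix (R := ZMod (p + 1)) (d := (F.map List.length).sum + 2)
      (by omega) (fun i _ => (degLE_leafC F i).mono (by omega)) _ _ os hos i hi)
    (by rw [hIm]; exact hdegleaf)
  refine ⟨V, hV, fun γ hγ => ?_⟩
  exact cand_mem (P := P) (m := m) (p := p) (i := i) (F := F) (os := os) (r := r) rfl hwf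
    hV (fun V' hV' => good_unique (by rw [hIm]; exact hmp) hV hV') hγ

end inst

/-- The candidates with a table. -/
noncomputable def cdT (gg : List Bool → Option ℕ) (q0 P : Polynomial ℕ) (m p : ℕ)
    (F : List (List (Bool × ℕ))) (T : Tab) (os : List Op) (r : List ℕ) (i : ℕ) : List (List ℕ) :=
  cdC gg q0 P T (IN m p F os r i)

/-- The properties of the candidates found with a table that has all the answers. -/
theorem chk_cand (H : Par P qs F m p) (hpred : SpecN P q0 gg) {T : Tab} {os : List Op}
    {r : List ℕ} {i : ℕ} (hos : os <:+ opsQ qs.length 0 qs)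
    (hrl : r.length = qs.length) (hra : ∀ a ∈ r, a ≤ p) (hi : i < qs.length)
    (hchk : chkT gg q0 P T (IN m p F os r i) = true) :
    ∃ V, Good (IN m p F os r i) V ∧ cf (IN m p F os r i).m V ∈ cdT gg q0 P m p F T os r i := by
  classical
  obtain ⟨V, hV, h⟩ := inst_cand (os := os) (r := r) (i := i) H hos hrl hra hi
  refine ⟨V, hV, ?_⟩
  unfold cdT
  rw [cdC_eq_of_chk hchk]
  refine h (gN gg q0 T) fun j hj q hq t ht => ?_
  rw [chkT_iff, IN_m] at hchk
  have h1 := hchk j hj q hq t ht
  obtain ⟨h2, h3⟩ := inst_legit (i := i) H hos hrl hra hi hj hq ht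
  obtain ⟨w, h4, h5, h6⟩ := gT_spec h1
  have e : YN P (IN m p F os r i) j q t = bits (YL P (IN m p F os r i) j q t) := rfl
  obtain ⟨k, hk⟩ : ∃ k, gg (pairBits (YN P (IN m p F os r i) j q t) w) = some k :=
    Option.ne_none_iff_exists'.1 h5
  have h7 : gN gg q0 T (YN P (IN m p F os r i) j q t) = k := by
    unfold gN
    rw [h6, hk]
    rfl
  rw [h7]
  exact (hpred (PN.eval m) (YL P (IN m p F os r i) j q t) h2 h3).2 w k (by rwa [← e])
    (by rw [← e]; exact hk)

/-- The result of a run in which all lists of candidates are nonempty is right. -/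
theorem run_correct (H : Par P qs F m p) (hpred : SpecN P q0 gg) (T : Tab)
    (hvis : VisOK p ((PDS P).eval m) (cdT gg q0 P m p F T) (opsQ qs.length 0 qs)
      (List.replicate qs.length 0)) :
    runG p ((PDS P).eval m) (fun r => leafN p F r) (fun o y u w => combN p o y u w)
      (cdT gg q0 P m p F T) (opsQ qs.length 0 qs) (List.replicate qs.length 0) % (p + 1) = 1 ↔
      evq qs (fun v => evc v F) = true := by
  have hprime : Fact (p + 1).Prime := ⟨H.hp⟩
  have hpm := H.pm
  have hmp := H.mp
  have hsz := H.hsz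
  have hp1 := H.h1
  have hp2 := H.h2
  have hPM : (PMS P).eval m = (PKS P).eval m * (PKS P).eval m * m + m + 2 := by
    simp [PMS]
  have hPD : (PDS P).eval m = 2 * (PMS P).eval m + 1 := by simp [PDS]
  have hrc := runG_correct' (p := p) (D := (PDS P).eval m) (m := m) (n := qs.length)
    (K := (PKS P).eval m) (lv := fun r => leafN p F r)
    (cm := fun o y u w => combN p o y u w)
    (cd := cdT gg q0 P m p F T)
    (vf := val (leafC F)) (os0 := opsQ qs.length 0 qs) (by omega) (by omega)
    (by omega) (opsQ_idx _ _ _ (by omega)) (fun r _ _ => cast_leafN p F r) ?_ ?_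
    (opsQ qs.length 0 qs) (List.replicate qs.length 0) List.suffix_rfl (by simp) (by
      intro a ha
      rw [List.eq_of_mem_replicate ha]
      exact Nat.zero_le _) hvis
  · have e1 : pt p (List.replicate qs.length 0) = fun _ => (0 : ZMod (p + 1)) := by
      funext i
      unfold pt
      by_cases hi : i < qs.length
      · rw [List.getD_eq_getElem _ _ (by simpa using hi)]
        simp
      · rw [List.getD_eq_getElem?_getD, List.getElem?_eq_none (by simpa using hi)]
        simp
    rw [e1, val_ops] at hrc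
    have h2 : ∀ y : ℕ, y % (p + 1) = 1 ↔ (y : ZMod (p + 1)) = 1 := by
      intro y
      have h3 := ZMod.natCast_eq_natCast_iff' y 1 (p + 1)
      rw [Nat.mod_eq_of_lt (a := 1) (by have := hprime.out.one_lt; omega), Nat.cast_one] at h3
      exact h3.symm
    rw [h2, hrc]
    unfold bit
    split_ifs with hb
    · simp [hb]
    · simp [hb]
  · rintro ⟨o, i⟩ os r u w hrl hra hi hu hw
    simp only
    rw [cast_combN, hu, hw]
    rfl
  · intro os r i hos hne hrl hra hi hnil
    have hchk : chkT gg q0 P T (IN m p F os r i) = true := by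
      by_contra hcon
      refine hnil ?_
      unfold cdT cdC
      rw [if_neg hcon]
    have hIm := IN_m m p F os r i
    have hIp : (IN m p F os r i).p = p := rfl
    obtain ⟨V, hV, hmem⟩ := chk_cand (i := i) H hpred hos hrl hra hi hchk
    refine ⟨?_, ?_, cf (IN m p F os r i).m V, hmem, hV.2.2⟩
    · unfold cdT
      rw [cdC_eq_of_chk hchk]
      have h1 := length_cdS_le (gN gg q0 T) P (IN m p F os r i)
      rw [hIm] at h1
      exact h1
    · intro cs hcs
      unfold cdT at hcs
      rw [cdC_eq_of_chk hchk] at hcs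
      have h1 := cdS_spec (gN gg q0 T) P (IN m p F os r i) cs hcs
      rw [hIm, hIp] at h1
      exact h1

end Pool.Agent.Helper48.LS3
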