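import Pool.Agent.Helper48.LS3.Main
import Pool.Agent.Helper48.NQ.B

/-!
# Nondeterministic selection from lists: the easy directions
-/

set_option autoImplicit false

namespace Pool.Agent.Helper48.LS3

open Pool.Agent.NPC
open Pool.Agent.Helper6K1.BN (poly_pairBits)
open Pool.Agent.Helper70K1.SP (poly_of_polyTime polyTime_of_typed poly_bits)
open Pool.Agent.Helper70K1.NQ (SNReduces)
open Pool.Agent.Helper48.NB (length_le_sz_of_mem)
open Pool.Agent.Helper48.NQ
open Pool.Agent.Helper45.LS (NListSelective Lone LV inPSPACE_LV)
open Pool.Agent.H623R2.PS (InPSPACE PSPACEHard)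

/-! ### Languages in `NP ∩ coNP` -/

/-- The selection: the first position if the first string is in the language, the second one
otherwise. -/
def gA' (V V' : List Bool → List Bool) (p p' : Polynomial ℕ) (y : List Bool) : Option ℕ :=
  if chk V V' p p' y = true then some (if gb y = true then 0 else 1) else none

theorem gA'_poly {V V' : List Bool → List Bool} (hV : PolyTime V) (hV' : PolyTime V')
    (p p' : Polynomial ℕ) : NPC.Poly (gA' V V' p p') := by
  unfold gA'
  exact NPC.Poly.ite (NPC.Poly.decide_bool (chk_poly hV hV' p p')) (NPC.Poly.some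
    (NPC.Poly.ite (NPC.Poly.decide_bool gb_poly) (NPC.Poly.const 0) (NPC.Poly.const 1)))
    (NPC.Poly.const none)

open Classical in
/-- A language that is in `NP` with its complement is nondeterministically selective from lists. -/
theorem nlistselective_of_np {L : Set (List Bool)} (h : InNP L) (h' : InNP Lᶜ) :
    NListSelective L := by
  obtain ⟨V, p, hV, hL⟩ := h
  obtain ⟨V', p', hV', hL'⟩ := h'
  refine ⟨Polynomial.C 2, p + p' + 1, gA' V V' p p',
    polyTime_of_typed (poly_bits (gA'_poly hV hV' p p')), fun n xs _ hxs => ?_⟩
  rw [Polynomial.eval_C] at hxs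
  obtain ⟨x, xs, rfl⟩ : ∃ x xs', xs = x :: xs' := by
    cases xs with
    | nil => simp at hxs
    | cons x xs => exact ⟨x, xs, rfl⟩
  have hX : ∀ w, gX (pairBits (bits (x :: xs)) w) = x :: xs := by
    intro w
    simp only [gX, unpair_pairBits, unbits_bits, Option.getD_some]
  have hx : ∀ w, gx (pairBits (bits (x :: xs)) w) = x := by
    intro w
    simp only [gx, hX, List.head?_cons, Option.getD_some]
  have hb : ∀ w, gb (pairBits (bits (x :: xs)) w) = w.head?.getD false := by
    intro w
    simp only [gb, unpair_pairBits]
  have hc : ∀ w, gc (pairBits (bits (x :: xs)) w) = w.tail := by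
    intro w
    simp only [gc, unpair_pairBits]
  have hlen : x.length ≤ (bits (x :: xs)).length := length_le_sz_of_mem (by simp)
  have hchk : ∀ w, chk V V' p p' (pairBits (bits (x :: xs)) w) = true →
      w.head?.getD false = decide (x ∈ L) := by
    intro w hw
    unfold chk at hw
    rw [hx, hb, hc] at hw
    cases hwb : w.head?.getD false with
    | true =>
      rw [hwb, if_pos rfl, decide_eq_true_iff] at hw
      exact (decide_eq_true ((hL x).2 ⟨w.tail, hw⟩)).symm
    | false =>
      rw [hwb, if_neg (by simp), decide_eq_true_iff] at hw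
      exact (decide_eq_false ((hL' x).2 ⟨w.tail, hw⟩)).symm
  constructor
  · -- some guess is accepted
    by_cases hxL : x ∈ L
    · obtain ⟨c, hc1, hc2⟩ := (hL x).1 hxL
      refine ⟨true :: c, ?_, ?_⟩
      · rw [List.length_cons]
        have e1 := eval_mono p hlen
        simp only [Polynomial.eval_add, Polynomial.eval_one]
        omega
      · have e : chk V V' p p' (pairBits (bits (x :: xs)) (true :: c)) = true := by
          unfold chk
          rw [hx, hb, hc]
          simp [hc1, hc2]
        unfold gA'
        rw [if_pos e]
        simp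
    · obtain ⟨c, hc1, hc2⟩ := (hL' x).1 hxL
      refine ⟨false :: c, ?_, ?_⟩
      · rw [List.length_cons]
        have e1 := eval_mono p' hlen
        simp only [Polynomial.eval_add, Polynomial.eval_one]
        omega
      · have e : chk V V' p p' (pairBits (bits (x :: xs)) (false :: c)) = true := by
          unfold chk
          rw [hx, hb, hc]
          simp [hc1, hc2]
        unfold gA'
        rw [if_pos e]
        simp
  · intro w i _ hi
    have e : chk V V' p p' (pairBits (bits (x :: xs)) w) = true := by
      by_contra hcon
      unfold gA' at hi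
      rw [if_neg hcon] at hi
      simp at hi
    have e2 : i = if x ∈ L then 0 else 1 := by
      unfold gA' at hi
      rw [if_pos e, hb, hchk w e] at hi
      by_cases hxL : x ∈ L
      · simp only [hxL, decide_true, if_true, Option.some.injEq] at hi ⊢
        exact hi.symm
      · simp only [hxL, decide_false, Bool.false_eq_true, if_false, Option.some.injEq] at hi ⊢
        exact hi.symm
    by_cases hxL : x ∈ L
    · rw [if_pos hxL] at e2
      subst e2
      refine ⟨by simp, fun hl => hl.1 ?_⟩
      simpa using hxL
    · rw [if_neg hxL] at e2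
      subst e2
      refine ⟨by omega, fun hl => hxL ?_⟩
      have := hl.2 0 (by omega) (by norm_num)
      simpa using this

/-! ### Reductions -/

/-- The selection for the reduced language. -/
def gC' (g : List Bool → Option ℕ) (f V : List Bool → List Bool)
    (q qK : Polynomial ℕ) (y : List Bool) : Option ℕ :=
  if chC f V q qK y = true then g (pairBits (bits (gY f y)) (gG y).2) else none

theorem gC'_poly {g : List Bool → Option ℕ} (hg : PolyTime fun y => bits (g y))
    {f V : List Bool → List Bool} (hf : PolyTime f) (hV : PolyTime V)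
    (q qK : Polynomial ℕ) : NPC.Poly (gC' g f V q qK) := by
  unfold gC'
  exact NPC.Poly.ite (NPC.Poly.decide_bool (chC_poly hf hV q qK))
    (poly_raw hg (poly_pairBits (poly_bits (gY_poly hf)) (NPC.Poly.snd gG_poly)))
    (NPC.Poly.const none)

open Classical in
/-- Nondeterministic selectivity from lists is inherited under strong nondeterministic
reductions. -/
theorem NListSelective.of_snreduces {L K : Set (List Bool)} (hK : NListSelective K)
    (h : SNReduces L K) : NListSelective L := by
  obtain ⟨P, qK, g, hg, hP⟩ := hK
  obtain ⟨f, V, q, hf, hV, hL⟩ := h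
  obtain ⟨pf, hpf⟩ := (poly_of_polyTime hf).sz_le
  set F : Polynomial ℕ := pf.comp (Polynomial.C 4 * (Polynomial.C 2 * Polynomial.X +
    Polynomial.C 1 + q) + Polynomial.C 1) with hF
  have hFe : ∀ n, F.eval n = pf.eval (4 * (2 * n + 1 + q.eval n) + 1) := fun n => by
    simp [hF]
  clear_value F
  have hsz : ∀ (n : ℕ) (x w : List Bool), x.length ≤ n → w.length ≤ q.eval x.length →
      sz (f (pairBits x w)) ≤ F.eval n := by
    intro n x w hx hw
    have e1 := hpf (pairBits x w)
    have e2 := sz_listBool_le (pairBits x w)
    rw [pairBits_len] at e2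
    have e3 := eval_mono q hx
    have e4 := eval_mono pf (m := sz (pairBits x w)) (n := 4 * (2 * n + 1 + q.eval n) + 1)
      (by omega)
    rw [hFe]
    exact e1.trans e4
  set Q : Polynomial ℕ := Polynomial.X * (Polynomial.C 4 * q + Polynomial.C 2) +
    Polynomial.C 4 * qK.comp (Polynomial.X * (F + Polynomial.C 1) + Polynomial.C 1) +
      Polynomial.C 3 with hQ
  have hQe : ∀ s, Q.eval s = s * (4 * q.eval s + 2) + 4 * qK.eval (s * (F.eval s + 1) + 1) + 3 :=
    fun s => by simp [hQ]
  clear_value Q
  refine ⟨P.comp F, Q, gC' g f V q qK, polyTime_of_typed (poly_bits (gC'_poly hg hf hV q qK)),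
    fun n xs hxs hlen => ?_⟩
  rw [Polynomial.eval_comp] at hlen
  have hX : ∀ w, gX (pairBits (bits xs) w) = xs := by
    intro w
    simp only [gX, unpair_pairBits, unbits_bits, Option.getD_some]
  -- the strings for the target
  have hmain : ∀ ws : List (List Bool), xs.length = ws.length →
      (∀ p ∈ xs.zip ws, p.2.length ≤ q.eval p.1.length ∧ V (pairBits p.1 p.2) = [true]) →
      (∀ y ∈ (xs.zip ws).map (fun p => f (pairBits p.1 p.2)), y.length ≤ F.eval n) ∧
      ((xs.zip ws).map fun p => f (pairBits p.1 p.2)).length = xs.length ∧
      ∀ i < xs.length, (xs.getD i [] ∈ L ↔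
        ((xs.zip ws).map fun p => f (pairBits p.1 p.2)).getD i [] ∈ K) := by
    intro ws hws hall
    have hl : ((xs.zip ws).map fun p => f (pairBits p.1 p.2)).length = xs.length := by
      rw [List.length_map, List.length_zip]
      omega
    refine ⟨?_, hl, ?_⟩
    · intro y hy
      obtain ⟨p, hp, rfl⟩ := List.mem_map.1 hy
      have e1 := hsz n p.1 p.2 (hxs p.1 (List.of_mem_zip hp).1) (hall p hp).1
      have e2 := length_lt_sz (f (pairBits p.1 p.2))
      omega
    · intro i hi
      have hz : i < (xs.zip ws).length := by
        rw [List.length_zip]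
        omega
      rw [List.getD_eq_getElem _ _ hi, List.getD_eq_getElem _ _ (by rw [hl]; exact hi),
        List.getElem_map]
      have hp := List.getElem_mem hz
      have h1 := hall _ hp
      have h2 := (hL ((xs.zip ws)[i]).1).2 ((xs.zip ws)[i]).2 h1.1 h1.2
      rw [← h2]
      rw [List.getElem_zip]
  constructor
  · choose c hc1 hc2 using fun x => (hL x).1
    have hzip : ∀ p ∈ xs.zip (xs.map c), p.2 = c p.1 := by
      intro p hp
      rw [List.zip_map_right, List.mem_map] at hp
      obtain ⟨⟨a, b⟩, hab, rfl⟩ := hp
      have hab' : a = b := by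
        have := List.mem_iff_getElem.1 hab
        obtain ⟨i, hi, e⟩ := this
        rw [List.getElem_zip, Prod.mk.injEq] at e
        rw [← e.1, ← e.2]
      subst hab'
      rfl
    have hall : ∀ p ∈ xs.zip (xs.map c),
        p.2.length ≤ q.eval p.1.length ∧ V (pairBits p.1 p.2) = [true] := by
      intro p hp
      rw [hzip p hp]
      exact ⟨hc1 _, hc2 _⟩
    obtain ⟨h1, h2, -⟩ := hmain (xs.map c) (by simp) hall
    set ys := (xs.zip (xs.map c)).map (fun p => f (pairBits p.1 p.2)) with hys
    obtain ⟨⟨w', hw', hne⟩, -⟩ := hP (F.eval n) ys h1 (by rw [h2]; exact hlen)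
    have hG : gG (pairBits (bits xs) (bits (xs.map c, w'))) = (xs.map c, w') := by
      simp only [gG, unpair_pairBits, unbits_bits, Option.getD_some]
    have hZ : gZ (pairBits (bits xs) (bits (xs.map c, w'))) = xs.zip (xs.map c) := by
      unfold gZ
      rw [hX, hG]
    have hY : gY f (pairBits (bits xs) (bits (xs.map c, w'))) = ys := by
      unfold gY
      rw [hZ]
    refine ⟨bits (xs.map c, w'), ?_, ?_⟩
    · set s := (bits xs).length with hs
      have hsx : ∀ x ∈ xs, x.length ≤ s := fun x hx => length_le_sz_of_mem hx
      have hsl : xs.length ≤ s := by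
        rw [hs, bits_length]
        exact (length_lt_sz xs).le
      have e1 : sz (xs.map c) ≤ s * (4 * q.eval s + 2) + 1 := by
        refine (sz_le_length_mul (xs.map c) (4 * q.eval s + 1) ?_).trans ?_
        · intro w hw
          obtain ⟨x, hx, rfl⟩ := List.mem_map.1 hw
          have g1 := sz_listBool_le (c x)
          have g2 := hc1 x
          have g3 := eval_mono q (hsx x hx)
          omega
        · rw [List.length_map]
          exact Nat.add_le_add_right (Nat.mul_le_mul_right (4 * q.eval s + 2) hsl) 1
      have e2 : sz ys ≤ s * (F.eval s + 1) + 1 := by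
        refine (sz_le_length_mul ys (F.eval s) ?_).trans ?_
        · intro y hy
          rw [hys] at hy
          obtain ⟨p, hp, rfl⟩ := List.mem_map.1 hy
          have hp1 := (List.of_mem_zip hp).1
          exact hsz s p.1 p.2 (hsx _ hp1) (hall p hp).1
        · rw [h2]
          have := Nat.mul_le_mul_right (F.eval s + 1) hsl
          omega
      have e3 : w'.length ≤ qK.eval (s * (F.eval s + 1) + 1) := by
        refine hw'.trans (eval_mono qK ?_)
        rw [bits_length]
        exact e2
      have e4 := sz_listBool_le w'
      rw [bits_length, sz_pair, hQe]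
      omega
    · have e : chC f V q qK (pairBits (bits xs) (bits (xs.map c, w'))) = true := by
        unfold chC
        rw [hX, hG, hZ, hY]
        simp only [Bool.and_eq_true, decide_eq_true_eq, List.all_eq_true]
        exact ⟨⟨by simp, hall⟩, hw'⟩
      unfold gC'
      rw [if_pos e, hY, hG]
      exact hne
  · intro w i _ hi
    have e : chC f V q qK (pairBits (bits xs) w) = true := by
      by_contra hcon
      unfold gC' at hi
      rw [if_neg hcon] at hi
      simp at hi
    have e2 : g (pairBits (bits (gY f (pairBits (bits xs) w)))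
        (gG (pairBits (bits xs) w)).2) = some i := by
      unfold gC' at hi
      rw [if_pos e] at hi
      exact hi
    have hY : gY f (pairBits (bits xs) w) = (xs.zip (gG (pairBits (bits xs) w)).1).map
        fun p => f (pairBits p.1 p.2) := by
      unfold gY gZ
      rw [hX]
    unfold chC at e
    rw [hX] at e
    simp only [gZ, hX] at e
    simp only [Bool.and_eq_true, decide_eq_true_eq, List.all_eq_true] at e
    obtain ⟨⟨h1, h2⟩, h3⟩ := e
    obtain ⟨g1, g2, g3⟩ := hmain _ h1 h2
    rw [← hY] at g1 g2 g3
    obtain ⟨-, h4⟩ := hP (F.eval n) _ g1 (by rw [g2]; exact hlen)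
    obtain ⟨h5, h6⟩ := h4 _ i h3 e2
    rw [g2] at h5
    refine ⟨h5, fun hl => h6 ⟨?_, ?_⟩⟩
    · rw [← g3 i h5]
      exact hl.1
    · intro j hj hne
      rw [g2] at hj
      rw [← g3 j hj]
      exact hl.2 j hj hne

/-! ### The theorem -/

/-- If polynomial space is contained in `NP` then every language in polynomial space is
nondeterministically selective from lists. -/
theorem nlistselective_of_collapse (h : ∀ L : Set (List Bool), InPSPACE L → InNP L)
    {L : Set (List Bool)} (hL : InPSPACE L) : NListSelective L :=
  nlistselective_of_np (h L hL) (h Lᶜ (Pool.Agent.R577.Reset.inPSPACE_compl hL))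

/-- **Polynomial space is contained in `NP`** if and only if its languages (or a hard one) are
nondeterministically selective from lists. -/
theorem nselective_tfae :
    [∀ L : Set (List Bool), InPSPACE L → InNP L,
     ∀ L : Set (List Bool), InPSPACE L → NListSelective L,
     ∃ K : Set (List Bool), PSPACEHard K ∧ NListSelective K,
     ∃ K : Set (List Bool), (∀ L : Set (List Bool), InPSPACE L → SNReduces L K) ∧
       NListSelective K].TFAE := by
  tfae_have 1 → 2 := fun h L hL => nlistselective_of_collapse h hL
  tfae_have 2 → 3 := fun h => by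
    obtain ⟨K, hK, hK'⟩ := exists_complete
    exact ⟨K, hK', h K hK⟩
  tfae_have 3 → 4 := fun ⟨K, hK, hK'⟩ => ⟨K, fun L hL => snreduces_of_reduces (hK L hL), hK'⟩
  tfae_have 4 → 2 := fun ⟨K, hK, hK'⟩ L hL => NListSelective.of_snreduces hK' (hK L hL)
  tfae_have 2 → 1 := fun h L hL => inNP_of_nlistselective (h LV inPSPACE_LV) hL
  tfae_finish

end Pool.Agent.Helper48.LS3
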