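import Pool.Agent.Helper48.LS3.Exist

/-!
# Polynomial space and nondeterministic selection from lists
-/

set_option autoImplicit false

namespace Pool.Agent.Helper48.LS3

open Pool.Agent.NPC
open Pool.Agent.Helper70K1.SP hiding PN length_flatMap_le
open Pool.Agent.Helper70K1.PP (PN PE PN_eval PE_eval PE_pos mm_le_PE rrP rrP_spec sz_queryP findF
  findF_spec poly_findF RB cc)
open Pool.Agent.Helper70K1.NQ (Tab fN YL YN VisOK trOK trOK_iff poly_trOK YB BE BT)
open Pool.Agent.Helper45.LS
open Pool.Agent.H623R2.PS (evq InPSPACE PSPACEHard poly_replicate)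
open Pool.Agent.H656R2.AK (evc QF QFwf qbf_hard)

/-- If the language `LV` is nondeterministically selective from lists, then polynomial space is
contained in `NP`. -/
theorem inNP_of_nlistselective (h : NListSelective LV) {L : Set (List Bool)} (hL : InPSPACE L) :
    InNP L := by
  classical
  obtain ⟨P, q0, gg, hgg, hpred⟩ := h
  have hpred' : SpecN P q0 gg := hpred
  obtain ⟨g, hg, hgwf, hgL⟩ := qbf_hard hL
  -- the size parameter
  have hbig : NPC.Poly (fun x : List Bool => ((g x).2, (opsQ (g x).1.length 0 (g x).1,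
      (g x).1))) := by
    have h1 : NPC.Poly (fun x : List Bool => (g x).1) := NPC.Poly.fst hg
    have h2 := poly_opsQ h1
    fun_prop
  obtain ⟨r1, hr1⟩ := hbig.sz_le
  obtain ⟨c0, hc0⟩ := poly_lt_two_pow (PDS P + Polynomial.C 2 * PE P ^ 2)
  set PM : Polynomial ℕ := r1.comp (Polynomial.C 4 * Polynomial.X + Polynomial.C 1) +
    Polynomial.C (10 + c0) with hPMd
  set mm : List Bool → ℕ := fun x => r1.eval (4 * x.length + 1) + (10 + c0) with hmm
  have hPMe : ∀ x : List Bool, PM.eval x.length = mm x := by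
    intro x
    simp [hPMd, hmm, Polynomial.eval_comp]
  have hmmU : UPoly mm := by
    refine UPoly.add ?_ (UPoly.const (10 + c0))
    exact (UPoly.add (UPoly.mul (UPoly.const 4) (UPoly.length NPC.Poly.id))
      (UPoly.const 1)).eval r1
  set pp : List Bool → ℕ := fun x => findP ((PMS P).eval (mm x)) - 1 with hpp
  have hppP : NPC.Poly pp := by
    have := poly_findP (hmmU.eval (PMS P))
    fun_prop
  have hWWP : NPC.Poly (fun x : List Bool => List.replicate (mm x) ()) := hmmU
  have hrrP : NPC.Poly (fun x : List Bool => List.replicate (g x).1.length 0) :=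
    poly_replicate (UPoly.length (NPC.Poly.fst hg)) 0
  set dec : List Bool × Tab → Bool := fun z =>
    trOK (pp z.1) ((PDS P).eval (mm z.1)) (cdT gg q0 P (mm z.1) (pp z.1) (g z.1).2 z.2)
      (opsQ (g z.1).1.length 0 (g z.1).1) (List.replicate (g z.1).1.length 0) &&
    decide (runG (pp z.1) ((PDS P).eval (mm z.1))
    (fun r => leafN (pp z.1) (g z.1).2 r) (fun o y u w => combN (pp z.1) o y u w)
    (cdT gg q0 P (mm z.1) (pp z.1) (g z.1).2 z.2) (opsQ (g z.1).1.length 0 (g z.1).1)
      (List.replicate (g z.1).1.length 0) % (pp z.1 + 1) = 1) with hdec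
  have hf1 : NPC.Poly (fun z : List Bool × Tab => z.1) := NPC.Poly.fst NPC.Poly.id
  have hppZ : NPC.Poly (fun z : List Bool × Tab => pp z.1) := hppP.comp hf1
  have hDZ : UPoly (fun z : List Bool × Tab => (PDS P).eval (mm z.1)) :=
    (hmmU.eval (PDS P)).comp hf1
  have hFZ : NPC.Poly (fun z : List Bool × Tab => (g z.1).2) := (NPC.Poly.snd hg).comp hf1
  have hosZ : NPC.Poly (fun z : List Bool × Tab => opsQ (g z.1).1.length 0 (g z.1).1) :=
    (poly_opsQ (NPC.Poly.fst hg)).comp hf1
  have hrZ : NPC.Poly (fun z : List Bool × Tab => List.replicate (g z.1).1.length 0) :=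
    hrrP.comp hf1
  have hcdZ : NPC.Poly (fun x : (List Bool × Tab) × List Op × List ℕ × ℕ =>
      cdT gg q0 P (mm x.1.1) (pp x.1.1) (g x.1.1).2 x.1.2 x.2.1 x.2.2.1 x.2.2.2) := by
    unfold cdT
    refine poly_cdC hgg q0 P (by fun_prop) ?_
    unfold IN
    have h1 := hWWP.comp (f := fun x : (List Bool × Tab) × List Op × List ℕ × ℕ => x.1.1)
      (by fun_prop)
    have h2 := hppP.comp (f := fun x : (List Bool × Tab) × List Op × List ℕ × ℕ => x.1.1)
      (by fun_prop)
    have h3 := (NPC.Poly.snd hg).comp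
      (f := fun x : (List Bool × Tab) × List Op × List ℕ × ℕ => x.1.1) (by fun_prop)
    exact NPC.Poly.pair h1 (NPC.Poly.pair h2 (NPC.Poly.pair h3 (by fun_prop)))
  have hdecP : NPC.Poly dec := by
    refine NPC.Poly.and ?_ ?_
    · exact poly_trOK (p := fun z : List Bool × Tab => pp z.1)
        (D := fun z => (PDS P).eval (mm z.1))
        (cd := fun z => cdT gg q0 P (mm z.1) (pp z.1) (g z.1).2 z.2) hppZ hDZ hcdZ hosZ hrZ
    · have h1 := poly_runG (p := fun z : List Bool × Tab => pp z.1)
        (D := fun z => (PDS P).eval (mm z.1))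
        (lv := fun z r => leafN (pp z.1) (g z.1).2 r)
        (cm := fun z o y u w => combN (pp z.1) o y u w)
        (cd := fun z => cdT gg q0 P (mm z.1) (pp z.1) (g z.1).2 z.2) hppZ hDZ hcdZ (by
          exact poly_leafN (p := fun x : (List Bool × Tab) × List ℕ => pp x.1.1)
            (F := fun x => (g x.1.1).2) (r := fun x => x.2)
            (hppZ.comp (NPC.Poly.fst NPC.Poly.id)) (hFZ.comp (NPC.Poly.fst NPC.Poly.id))
            (by fun_prop))
        (fun z r => leafN_le _ _ _) (by
          exact poly_combN (p := fun x : (List Bool × Tab) × Option Bool × ℕ × ℕ × ℕ => pp x.1.1)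
            (x := fun x => x.2.2.1) (u := fun x => x.2.2.2.1) (w := fun x => x.2.2.2.2)
            (o := fun x => x.2.1) (hppZ.comp (NPC.Poly.fst NPC.Poly.id)) (by fun_prop)
            (by fun_prop) (by fun_prop) (by fun_prop))
        (fun z o y u w => (combN_le _ _ _ _ _).trans (Nat.le_succ _))
        (os := fun z => opsQ (g z.1).1.length 0 (g z.1).1)
        (r := fun z => List.replicate (g z.1).1.length 0) hosZ hrZ
      exact NPC.Poly.dec_eq (NPC.Poly.mod h1 (NPC.Poly.add hppZ (NPC.Poly.const 1)))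
        (NPC.Poly.const 1)
  -- the parameters fit
  have hpar : ∀ x : List Bool, Par P (g x).1 (g x).2 (mm x) (pp x) := by
    intro x
    have hsz : sz (g x).2 + sz (opsQ (g x).1.length 0 (g x).1) + sz (g x).1 + 10 + c0 ≤ mm x := by
      have h1 := hr1 x
      have h2 := sz_listBool_le x
      have h3 := eval_mono r1 h2
      simp only [sz_pair] at h1
      rw [hmm]
      simp only
      omega
    have hpow := hc0 (mm x) (by omega)
    have hfp := findP_spec (M := (PMS P).eval (mm x)) (by simp [PMS])
    have hpx : pp x = findP ((PMS P).eval (mm x)) - 1 := rfl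
    have hp1 : pp x + 1 = findP ((PMS P).eval (mm x)) := by omega
    refine ⟨by rw [hp1]; exact hfp.1, by omega, by omega, by omega, ?_⟩
    have e : (PDS P + Polynomial.C 2 * PE P ^ 2).eval (mm x) =
        (PDS P).eval (mm x) + 2 * ((PE P).eval (mm x)) ^ 2 := by
      simp
    rw [← e]
    exact hpow
  have hdecL : ∀ (x : List Bool) (T : Tab), dec (x, T) = true ↔
      VisOK (pp x) ((PDS P).eval (mm x)) (cdT gg q0 P (mm x) (pp x) (g x).2 T)
        (opsQ (g x).1.length 0 (g x).1) (List.replicate (g x).1.length 0) ∧ x ∈ L := by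
    intro x T
    rw [hdec]
    simp only
    rw [Bool.and_eq_true, trOK_iff, decide_eq_true_eq]
    constructor
    · rintro ⟨h1, h2⟩
      exact ⟨h1, (hgL x).2 ((run_correct (hpar x) hpred' T h1).1 h2)⟩
    · rintro ⟨h1, h2⟩
      exact ⟨h1, (run_correct (hpar x) hpred' T h1).2 ((hgL x).1 h2)⟩
  refine ⟨fun y => [dec ((unpair y).1, (unbits Tab (unpair y).2).getD [])], (BT P q0).comp PM,
    polyTime_of_poly ?_, fun x => ?_⟩
  · have h1 : NPC.Poly (fun y : List Bool => (unpair y).1) := NPC.Poly.fst poly_unpair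
    have h2 : NPC.Poly (fun y : List Bool => (unpair y).2) := NPC.Poly.snd poly_unpair
    exact hdecP.comp (NPC.Poly.pair h1 (NPC.Poly.optGetD (poly_unbits.comp h2)
      (NPC.Poly.const _)))
  · constructor
    · intro hx
      obtain ⟨T, hT, hT2⟩ := table_exists (hpar x) hpred'
      refine ⟨bits T, ?_, ?_⟩
      · rw [bits_length, Polynomial.eval_comp, hPMe]
        exact hT2
      · simp only [unpair_pairBits, unbits_bits, Option.getD_some, List.cons.injEq, and_true]
        exact (hdecL x T).2 ⟨hT, hx⟩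
    · rintro ⟨w, _, hw⟩
      simp only [unpair_pairBits, List.cons.injEq, and_true] at hw
      exact ((hdecL x _).1 hw).2

end Pool.Agent.Helper48.LS3
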