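import Pool.Agent.Helper70K1.NQ.Table
import Pool.Agent.Helper45.LS.Defs
import Pool.Agent.Helper45.LS.PolyS

/-!
# Tables of guesses for nondeterministic selection functions
-/

set_option autoImplicit false

namespace Pool.Agent.Helper48.LS3

open Pool.Agent.NPC
open Pool.Agent.Helper70K1.PP
open Pool.Agent.Helper70K1.SP (tb tb_eq hsh hsh_spec nodup_ext poly_of_polyTime polyTime_of_typed
  poly_bits)
open Pool.Agent.Helper6K1.BN (poly_pairBits)
open Pool.Agent.Helper70K1.NQ (Tab dcT poly_dcT hsh_lt)
open Pool.Agent.Helper45.LS (prS listS stepS)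

/-! ### The lists of candidates depend only on the answers for the queries -/

theorem prS_congr {g g' : List Bool → ℕ} {qb qb' : ℕ → ℕ → ℕ → ℕ → List Bool}
    {M N r : ℕ} {f : List Bool} {j : ℕ}
    (h : ∀ q < 2 ^ (r * cc), ∀ t < 2 ^ (r * (2 * cc)),
      g (bits ((List.range M).map (qb j q t))) = g' (bits ((List.range M).map (qb' j q t))))
    (A : List ℕ) : prS g qb M N r f j A = prS g' qb' M N r f j A := by
  unfold prS
  rw [h (hsh (r * cc) A) (hsh_lt _ _) (findT r f cc (A.map fun v => v %
    hsh (r * cc) A)) findT_lt]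

theorem listS_congr {g g' : List Bool → ℕ}
    {qb qb' : ℕ → ℕ → ℕ → ℕ → List Bool} {M N r : ℕ} {f : List Bool} {μ : ℕ}
    (h : ∀ j ≤ μ, ∀ q < 2 ^ (r * cc), ∀ t < 2 ^ (r * (2 * cc)),
      g (bits ((List.range M).map (qb j q t))) = g' (bits ((List.range M).map (qb' j q t)))) :
    ∀ j ≤ μ, listS g qb M N r f j = listS g' qb' M N r f j
  | 0, _ => rfl
  | j + 1, hj => by
    rw [listS, listS, listS_congr h j (by omega), stepS, stepS]
    congr 2
    exact funext fun A => prS_congr (h (j + 1) hj) A

/-! ### Tables -/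

/-- The guess is accepted. -/
noncomputable def okE (g : List Bool → Option ℕ) (q : Polynomial ℕ) (y w : List Bool) : Bool :=
  decide (w.length ≤ q.eval y.length) && !decide (g (pairBits y w) = none)

/-- The answer found with a table. -/
noncomputable def gT (g : List Bool → Option ℕ) (q : Polynomial ℕ) (T : Tab)
    (y : List Bool) : Option ℕ :=
  ((T.filter fun e => decide (e.1 = y) && okE g q y e.2).head?).elim none
    fun e => g (pairBits y e.2)

/-- The answer found with a table, as a number. -/
noncomputable def gN (g : List Bool → Option ℕ) (q : Polynomial ℕ) (T : Tab)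
    (y : List Bool) : ℕ := (gT g q T y).getD 0

/-- The answer for a list of queries that contain the table. -/
noncomputable def gE (g : List Bool → Option ℕ) (q : Polynomial ℕ) (y : List Bool) : ℕ :=
  gN g q (((dcT y).head?).elim [] Prod.fst) (bits ((dcT y).map Prod.snd))

theorem gE_eq (g : List Bool → Option ℕ) (q : Polynomial ℕ) (T : Tab) {M : ℕ}
    (hM : 0 < M) (a : ℕ → List Bool) :
    gE g q (bits ((List.range M).map fun i => bits ((T, a i) : Tab × List Bool))) =
      gN g q T (bits ((List.range M).map a)) := by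
  have h1 : dcT (bits ((List.range M).map fun i => bits ((T, a i) : Tab × List Bool))) =
      (List.range M).map fun i => (T, a i) := by
    unfold dcT
    rw [unbits_bits, Option.getD_some, List.map_map]
    refine List.map_congr_left fun i _ => ?_
    simp only [Function.comp, unbits_bits, Option.getD_some]
  unfold gE
  rw [h1]
  obtain ⟨M, rfl⟩ : ∃ M', M = M' + 1 := ⟨M - 1, by omega⟩
  rw [List.map_map]
  have h2 : ((List.range (M + 1)).map fun i => (T, a i)).head? = some (T, a 0) := by
    rw [List.range_succ_eq_map, List.map_cons, List.head?_cons]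
  rw [h2]
  rfl

theorem gT_spec {g : List Bool → Option ℕ} {q : Polynomial ℕ} {T : Tab}
    {y : List Bool} (h : gT g q T y ≠ none) :
    ∃ w : List Bool, w.length ≤ q.eval y.length ∧ g (pairBits y w) ≠ none ∧
      gT g q T y = g (pairBits y w) := by
  unfold gT at h ⊢
  cases h1 : (T.filter fun e => decide (e.1 = y) && okE g q y e.2) with
  | nil => rw [h1] at h; simp at h
  | cons e l =>
    have h2 : e ∈ T.filter fun e => decide (e.1 = y) && okE g q y e.2 := by
      rw [h1]; exact List.mem_cons_self
    rw [List.mem_filter, Bool.and_eq_true, okE, Bool.and_eq_true, decide_eq_true_eq,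
      decide_eq_true_eq, Bool.not_eq_true', decide_eq_false_iff_not] at h2
    exact ⟨e.2, h2.2.2.1, h2.2.2.2, by simp⟩

/-- The answers for the guesses of a choice function. -/
theorem gT_of_choice {g : List Bool → Option ℕ} {q : Polynomial ℕ} {T : Tab}
    {ch : List Bool → List Bool} (hT : ∀ e ∈ T, e.2 = ch e.1) {y : List Bool} (hy : (y, ch y) ∈ T)
    (hok : okE g q y (ch y) = true) : gT g q T y = g (pairBits y (ch y)) := by
  unfold gT
  cases h1 : (T.filter fun e => decide (e.1 = y) && okE g q y e.2) with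
  | nil =>
    have h2 : (y, ch y) ∈ T.filter fun e => decide (e.1 = y) && okE g q y e.2 := by
      rw [List.mem_filter]
      exact ⟨hy, by simp [hok]⟩
    rw [h1] at h2
    simp at h2
  | cons e l =>
    have h2 : e ∈ T.filter fun e => decide (e.1 = y) && okE g q y e.2 := by
      rw [h1]; exact List.mem_cons_self
    rw [List.mem_filter, Bool.and_eq_true, decide_eq_true_eq] at h2
    have h3 := hT e h2.1
    rw [h2.2.1] at h3
    simp [h3]

/-! ### Complexity -/

variable {α : Type} [TEnc α] {g : List Bool → Option ℕ}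

theorem poly_raw (hg : PolyTime fun y => bits (g y)) {Q : α → List Bool} (hQ : NPC.Poly Q) :
    NPC.Poly (fun x => g (Q x)) := by
  have h1 : NPC.Poly (fun x => bits (g (Q x))) := (poly_of_polyTime hg).comp hQ
  have h2 : NPC.Poly (fun x => (unbits (Option ℕ) (bits (g (Q x)))).getD none) :=
    NPC.Poly.optGetD (poly_unbits.comp h1) (NPC.Poly.const _)
  refine h2.congr fun x => ?_
  rw [unbits_bits]
  rfl

theorem poly_okE (hg : PolyTime fun y => bits (g y)) (q : Polynomial ℕ) {y w : α → List Bool}
    (hy : NPC.Poly y) (hw : NPC.Poly w) : NPC.Poly (fun x => okE g q (y x) (w x)) := by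
  unfold okE
  have h1 : NPC.Poly (fun x => q.eval (y x).length) := ((UPoly.length hy).eval q).toPoly
  have h2 : NPC.Poly (fun x => g (pairBits (y x) (w x))) := poly_raw hg (poly_pairBits hy hw)
  exact NPC.Poly.and (NPC.Poly.decide_le (NPC.Poly.length hw) h1)
    (NPC.Poly.not (NPC.Poly.decide_eq h2 (NPC.Poly.const none)))

theorem poly_gT (hg : PolyTime fun y => bits (g y)) (q : Polynomial ℕ) {T : α → Tab}
    (hT : NPC.Poly T) {y : α → List Bool} (hy : NPC.Poly y) :
    NPC.Poly (fun x => gT g q (T x) (y x)) := by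
  unfold gT
  refine NPC.Poly.optElim (g := fun _ => (none : Option ℕ))
    (h := fun x (e : List Bool × List Bool) => g (pairBits (y x) e.2)) ?_ (NPC.Poly.const _) ?_
  · refine NPC.Poly.head? (NPC.Poly.filter (p := fun x (e : List Bool × List Bool) =>
      decide (e.1 = y x) && okE g q (y x) e.2) hT ?_)
    exact NPC.Poly.and (NPC.Poly.decide_eq (NPC.Poly.fst (NPC.Poly.snd NPC.Poly.id))
      (hy.comp (NPC.Poly.fst NPC.Poly.id))) (poly_okE hg q (hy.comp (NPC.Poly.fst NPC.Poly.id))
        (NPC.Poly.snd (NPC.Poly.snd NPC.Poly.id)))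
  · exact poly_raw hg (poly_pairBits (hy.comp (NPC.Poly.fst NPC.Poly.id))
      (NPC.Poly.snd (NPC.Poly.snd NPC.Poly.id)))

theorem poly_gN (hg : PolyTime fun y => bits (g y)) (q : Polynomial ℕ) {T : α → Tab}
    (hT : NPC.Poly T) {y : α → List Bool} (hy : NPC.Poly y) :
    NPC.Poly (fun x => gN g q (T x) (y x)) := by
  unfold gN
  exact NPC.Poly.optGetD (poly_gT hg q hT hy) (NPC.Poly.const 0)

theorem poly_gE (hg : PolyTime fun y => bits (g y)) (q : Polynomial ℕ) : NPC.Poly (gE g q) := by
  unfold gE
  refine poly_gN hg q ?_ (poly_bits ?_)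
  · exact NPC.Poly.optElim (g := fun _ => ([] : Tab)) (h := fun _ (e : Tab × List Bool) => e.1)
      (NPC.Poly.head? poly_dcT) (NPC.Poly.const _) (NPC.Poly.fst (NPC.Poly.snd NPC.Poly.id))
  · exact NPC.Poly.map (F := fun _ (e : Tab × List Bool) => e.2) poly_dcT
      (NPC.Poly.snd (NPC.Poly.snd NPC.Poly.id))

theorem polyTime_gE (hg : PolyTime fun y => bits (g y)) (q : Polynomial ℕ) :
    PolyTime fun y => bits (gE g q y) := polyTime_of_typed (poly_bits (poly_gE hg q))

end Pool.Agent.Helper48.LS3
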